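import Pool.Agent.Helper14.GS.St

/-! Module A9 of project GS: from consecutive integers to primes. -/

set_option autoImplicit false

namespace Pool.Agent.Helper92.GS

open Pool.Agent.Helper14.GS

theorem sum_fact_le {m : ℕ} (hm : 1 ≤ m) :
    ∑ q ∈ m.primeFactors, (m.factorization q : ℝ) ≤ 2 * m := by
  have h1 : Real.log m = ∑ q ∈ m.primeFactors, (m.factorization q : ℝ) * Real.log q := by
    rw [Real.log_nat_eq_sum_factorization]
    rfl
  have h2 : (1 / 2 : ℝ) * ∑ q ∈ m.primeFactors, (m.factorization q : ℝ) ≤ Real.log m := by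
    rw [h1, Finset.mul_sum]
    apply Finset.sum_le_sum
    intro q hq
    have hq2 : (2 : ℝ) ≤ q := by exact_mod_cast (Nat.prime_of_mem_primeFactors hq).two_le
    have h3 : (1 / 2 : ℝ) ≤ Real.log q := by
      have h4 : Real.log 2 ≤ Real.log q := Real.log_le_log (by norm_num) hq2
      have h5 := Real.log_two_gt_d9
      linarith
    have h6 : (0 : ℝ) ≤ (m.factorization q : ℝ) := Nat.cast_nonneg _
    nlinarith
  have h7 : Real.log m ≤ m := by
    have hm' : (0 : ℝ) < m := by exact_mod_cast hm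
    have := Real.log_le_sub_one_of_pos hm'
    linarith
  linarith

theorem log_approx {m : ℕ} (hm : 1 ≤ m) {θ ε : ℝ} (hε : 0 ≤ ε) (N : ℕ → ℤ)
    (h : ∀ q ∈ m.primeFactors, |θ * Real.log q - N q| ≤ ε) :
    |θ * Real.log m - ((∑ q ∈ m.primeFactors, (m.factorization q : ℤ) * N q : ℤ) : ℝ)| ≤
      2 * m * ε := by
  have h1 : Real.log m = ∑ q ∈ m.primeFactors, (m.factorization q : ℝ) * Real.log q := by
    rw [Real.log_nat_eq_sum_factorization]
    rfl
  have h2 : θ * Real.log m - ((∑ q ∈ m.primeFactors, (m.factorization q : ℤ) * N q : ℤ) : ℝ) =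
      ∑ q ∈ m.primeFactors, (m.factorization q : ℝ) * (θ * Real.log q - N q) := by
    rw [h1, Finset.mul_sum]
    push_cast
    rw [← Finset.sum_sub_distrib]
    apply Finset.sum_congr rfl
    intro q _
    ring
  rw [h2]
  calc |∑ q ∈ m.primeFactors, (m.factorization q : ℝ) * (θ * Real.log q - N q)|
      ≤ ∑ q ∈ m.primeFactors, |(m.factorization q : ℝ) * (θ * Real.log q - N q)| :=
        Finset.abs_sum_le_sum_abs _ _
    _ ≤ ∑ q ∈ m.primeFactors, (m.factorization q : ℝ) * ε := by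
        apply Finset.sum_le_sum
        intro q hq
        rw [abs_mul, abs_of_nonneg (Nat.cast_nonneg _)]
        exact mul_le_mul_of_nonneg_left (h q hq) (Nat.cast_nonneg _)
    _ = (∑ q ∈ m.primeFactors, (m.factorization q : ℝ)) * ε := by rw [Finset.sum_mul]
    _ ≤ 2 * m * ε := mul_le_mul_of_nonneg_right (sum_fact_le hm) hε

theorem A9 (h8 : StA8) : StA9 := by
  intro κ hκ
  obtain ⟨k, hk20, hkκ⟩ : ∃ k : ℕ, 20 ≤ k ∧ 20 / (k : ℝ) < κ := by
    obtain ⟨k0, hk0⟩ := exists_nat_gt (20 / κ)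
    refine ⟨k0 + 20, by omega, ?_⟩
    have h1 : (0 : ℝ) < ((k0 + 20 : ℕ) : ℝ) := by positivity
    rw [div_lt_iff₀ h1]
    rw [div_lt_iff₀ hκ] at hk0
    push_cast
    nlinarith
  obtain ⟨n, hn, θ₁, hθ₁, H⟩ := h8 k hk20
  set δ : ℝ := κ - 20 / (k : ℝ) with hδ
  have hδ0 : 0 < δ := by linarith
  set M : ℝ := 2 * ((n + k : ℕ) : ℝ) + 1 with hM
  have hM0 : 0 < M := by positivity
  refine ⟨n + k, max θ₁ (M ^ (1 / δ)), le_trans hθ₁ (le_max_left _ _), ?_⟩
  intro θ hθ N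
  have hθ1 : θ₁ ≤ θ := le_trans (le_max_left _ _) hθ
  have hθ2 : M ^ (1 / δ) ≤ θ := le_trans (le_max_right _ _) hθ
  have hθ0 : 0 < θ := by linarith
  have hMδ : M ≤ θ ^ δ := by
    calc M = (M ^ (1 / δ)) ^ δ := by
          rw [← Real.rpow_mul hM0.le, one_div, inv_mul_cancel₀ hδ0.ne', Real.rpow_one]
      _ ≤ θ ^ δ := Real.rpow_le_rpow (by positivity) hθ2 hδ0.le
  by_contra hcon
  push Not at hcon
  obtain ⟨j, hj, hjb⟩ := H θ hθ1
    (fun j => ∑ q ∈ (n + j).primeFactors, ((n + j).factorization q : ℤ) * N q)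
  have hε : 0 ≤ θ ^ (-κ) := (Real.rpow_pos_of_pos hθ0 _).le
  have h1 := log_approx (m := n + j) (by omega) (θ := θ) hε N (fun q hq => by
    have hq1 := Nat.prime_of_mem_primeFactors hq
    have hq2 := Nat.le_of_dvd (by omega) (Nat.dvd_of_mem_primeFactors hq)
    exact (hcon q hq1 (by omega)).le)
  have h2 : θ ^ (-(20 / (k : ℝ))) ≤ 2 * ((n + j : ℕ) : ℝ) * θ ^ (-κ) := le_trans hjb h1
  have h3 : θ ^ (-(20 / (k : ℝ))) = θ ^ δ * θ ^ (-κ) := by
    rw [← Real.rpow_add hθ0]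
    congr 1
    rw [hδ]
    ring
  have h4 : 0 < θ ^ (-κ) := Real.rpow_pos_of_pos hθ0 _
  rw [h3] at h2
  have h5 : θ ^ δ ≤ 2 * ((n + j : ℕ) : ℝ) := le_of_mul_le_mul_right h2 h4
  have h6 : ((n + j : ℕ) : ℝ) ≤ ((n + k : ℕ) : ℝ) := by exact_mod_cast (by omega : n + j ≤ n + k)
  linarith

end Pool.Agent.Helper92.GS
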